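import Pool.Agent.Helper91.IP.St.Stubs

/-!
# IP-E6: the commutator trick
-/

namespace Pool.Agent.Helper29.IP

open Finset Equiv Matrix Pool.Agent.Helper91.IP

variable {V : Type} [Fintype V] [DecidableEq V]

/-- For fixed `a`, the fibres of `b ↦ a b a⁻¹ b⁻¹` have at most as many elements as the
centraliser of `a`. -/
theorem fibre_card {Q : Type} [Group Q] [Fintype Q] [DecidableEq Q] (a g : Q)
    [DecidablePred fun b : Q => Commute a b] :
    (univ.filter fun b : Q => a * b * a⁻¹ * b⁻¹ = g).card ≤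
      (univ.filter fun b : Q => Commute a b).card := by
  rcases (univ.filter fun b : Q => a * b * a⁻¹ * b⁻¹ = g).eq_empty_or_nonempty with h | ⟨b₀, hb₀⟩
  · rw [h]; simp
  · rw [mem_filter] at hb₀
    apply Finset.card_le_card_of_injOn (fun b => b₀⁻¹ * b)
    · intro b hb
      simp only [coe_filter, mem_univ, true_and, Set.mem_ofPred_eq] at hb ⊢
      have h1 : a * b * a⁻¹ * b⁻¹ = a * b₀ * a⁻¹ * b₀⁻¹ := by rw [hb, hb₀.2]
      have h2 : b * a⁻¹ * b⁻¹ = b₀ * a⁻¹ * b₀⁻¹ := by
        have := congrArg (fun x => a⁻¹ * x) h1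
        simpa [mul_assoc] using this
      have h3 : (b₀⁻¹ * b) * a⁻¹ = a⁻¹ * (b₀⁻¹ * b) := by
        have := congrArg (fun x => b₀⁻¹ * x * b) h2
        simpa [mul_assoc] using this
      have h4 : Commute (b₀⁻¹ * b) a⁻¹ := h3
      exact (Commute.inv_right_iff.1 h4).symm
    · intro x _ y _ hxy
      exact mul_left_cancel hxy

theorem comm_sum {Q : Type} [Group Q] [Fintype Q] (κ : Q → ℝ) (hκ : ∀ g, 0 ≤ κ g) :
    ∑ a, ∑ b, κ (a * b * a⁻¹ * b⁻¹) ≤
      (Nat.card (ConjClasses Q) : ℝ) * Fintype.card Q * ∑ g, κ g := by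
  classical
  have h1 : ∀ a : Q, ∑ b, κ (a * b * a⁻¹ * b⁻¹) ≤
      ((univ.filter fun b : Q => Commute a b).card : ℝ) * ∑ g, κ g := by
    intro a
    have : ∑ b, κ (a * b * a⁻¹ * b⁻¹) =
        ∑ g, ((univ.filter fun b : Q => a * b * a⁻¹ * b⁻¹ = g).card : ℝ) * κ g := by
      rw [← Finset.sum_fiberwise (s := univ) (g := fun b : Q => a * b * a⁻¹ * b⁻¹)]
      refine sum_congr rfl fun g _ => ?_
      rw [Finset.sum_congr rfl (g := fun _ => κ g)]
      · rw [sum_const, nsmul_eq_mul]
      · intro b hb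
        rw [(mem_filter.1 hb).2]
    rw [this, mul_sum]
    refine sum_le_sum fun g _ => ?_
    exact mul_le_mul_of_nonneg_right (by exact_mod_cast fibre_card a g) (hκ g)
  refine (sum_le_sum fun a _ => h1 a).trans ?_
  rw [← sum_mul]
  refine mul_le_mul_of_nonneg_right (le_of_eq ?_) (sum_nonneg fun g _ => hκ g)
  have h2 := card_comm_eq_card_conjClasses_mul_card Q
  have h3 : Nat.card {p : Q × Q // Commute p.1 p.2} =
      ∑ a, (univ.filter fun b : Q => Commute a b).card := by
    rw [Nat.card_eq_fintype_card, Fintype.card_subtype, ← Finset.card_sigma]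
    refine Finset.card_bij' (fun p _ => ⟨p.1, p.2⟩) (fun p _ => (p.1, p.2)) ?_ ?_ ?_ ?_
    · intro p hp; simpa using hp
    · intro p hp; simpa using hp
    · intro p _; rfl
    · intro p _; rfl
  rw [h3, Nat.card_eq_fintype_card (α := Q)] at h2
  exact_mod_cast h2

theorem sum_fixS {M : Type} [AddCommMonoid M] (S : Finset V) (f : Perm V → M) :
    ∑ g ∈ fixS S, f g = ∑ q : Perm {x : V // x ∉ S}, f (Perm.ofSubtype q) := by
  symm
  refine Finset.sum_bij (fun q _ => Perm.ofSubtype q) ?_ ?_ ?_ ?_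
  · intro q _
    simp only [fixS, mem_filter, mem_univ, true_and]
    intro i hi
    exact Perm.ofSubtype_apply_of_not_mem q (by simpa using hi)
  · intro q _ q' _ h
    exact Perm.ofSubtype_injective h
  · intro g hg
    simp only [fixS, mem_filter, mem_univ, true_and] at hg
    refine ⟨(Equiv.Perm.subtypeEquivSubtypePerm (fun x => x ∉ S)).symm
      ⟨g, fun a ha => hg a (by simpa using ha)⟩, mem_univ _, ?_⟩
    have := (Equiv.Perm.subtypeEquivSubtypePerm (fun x => x ∉ S)).apply_symm_apply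
      ⟨g, fun a ha => hg a (by simpa using ha)⟩
    have h2 := congrArg Subtype.val this
    rw [Equiv.Perm.subtypeEquivSubtypePerm_apply_coe] at h2
    exact h2
  · intro q _; rfl

/-- IP-E6 (uses E2): the commutator trick -/
theorem trace_Kap {w : V → V → ℝ} (hw : ∀ x y, 0 ≤ w x y) {T : ℝ} (hT : 0 ≤ T) (S : Finset V) :
    trace (Kt w T * Kap S) ≤
      (Nat.card (ConjClasses (Perm {x : V // x ∉ S})) : ℝ) * trace (Kt w T * PF S) := by
  set κ : Perm V → ℝ := fun g => trace (Kt w T * Rm g) with hκdef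
  have hκ : ∀ g, 0 ≤ κ g := by
    intro g
    simp only [hκdef, trace, diag_apply, mul_apply]
    refine sum_nonneg fun s _ => sum_nonneg fun s' _ => mul_nonneg (Kt_nonneg w hw hT s s') ?_
    unfold Rm
    split_ifs <;> norm_num
  set N : ℝ := ((fixS S).card : ℝ) with hN
  have hcard : (fixS S).card = Fintype.card (Perm {x : V // x ∉ S}) := by
    have := sum_fixS S (fun _ => 1)
    simpa using this
  have hNpos : 0 < N := by
    rw [hN, hcard]
    exact_mod_cast Fintype.card_pos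
  have hK : trace (Kt w T * Kap S) =
      (N ^ 2)⁻¹ * ∑ a : Perm {x : V // x ∉ S}, ∑ b : Perm {x : V // x ∉ S},
        κ (Perm.ofSubtype (a * b * a⁻¹ * b⁻¹)) := by
    unfold Kap
    rw [Matrix.mul_smul, trace_smul, smul_eq_mul, ← hN, Matrix.mul_sum, trace_sum, sum_fixS]
    congr 1
    refine sum_congr rfl fun a _ => ?_
    rw [Matrix.mul_sum, trace_sum, sum_fixS]
    refine sum_congr rfl fun b _ => ?_
    simp only [hκdef, map_mul, map_inv]
  have hP : trace (Kt w T * PF S) =
      N⁻¹ * ∑ g : Perm {x : V // x ∉ S}, κ (Perm.ofSubtype g) := by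
    unfold PF
    rw [Matrix.mul_smul, trace_smul, smul_eq_mul, ← hN, Matrix.mul_sum, trace_sum, sum_fixS]
  have hmain := comm_sum (fun g : Perm {x : V // x ∉ S} => κ (Perm.ofSubtype g))
    (fun g => hκ _)
  rw [hK, hP]
  rw [← hcard, ← hN] at hmain
  calc (N ^ 2)⁻¹ * ∑ a : Perm {x : V // x ∉ S}, ∑ b : Perm {x : V // x ∉ S},
        κ (Perm.ofSubtype (a * b * a⁻¹ * b⁻¹))
      ≤ (N ^ 2)⁻¹ * ((Nat.card (ConjClasses (Perm {x : V // x ∉ S})) : ℝ) * N *
        ∑ g : Perm {x : V // x ∉ S}, κ (Perm.ofSubtype g)) :=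
        mul_le_mul_of_nonneg_left hmain (by positivity)
    _ = _ := by
        field_simp

end Pool.Agent.Helper29.IP
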